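import Mathlib

/-!
The optimal exponent of the error term in the asymptotic formula for the moments of the zeta function
(MP_1156f3_nt). Definitions.
-/

set_option autoImplicit false

namespace Pool.Agent.LibTH86

/-- the `2k`-th moment of the zeta function on the critical line -/
noncomputable def I (k : ℕ) (T : ℝ) : ℝ :=
  ∫ t in (0 : ℝ)..T, ‖riemannZeta (1 / 2 + (t : ℂ) * Complex.I)‖ ^ (2 * k)

/-- `θ ≥ 0` is an admissible exponent: `I k T = T P(log T) + O(T ^ θ)` as `T → ∞`, for some real
polynomial `P` of degree `k²` -/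
def Admissible (k : ℕ) (θ : ℝ) : Prop :=
  0 ≤ θ ∧ ∃ P : Polynomial ℝ, P.natDegree = k ^ 2 ∧
    (fun T : ℝ => I k T - T * P.eval (Real.log T)) =O[Filter.atTop] fun T : ℝ => T ^ θ

/-- the optimal exponent `θ_k`, the infimum of the admissible exponents (`+∞` if there are none) -/
noncomputable def theta (k : ℕ) : EReal := sInf {x : EReal | ∃ θ : ℝ, Admissible k θ ∧ x = θ}

end Pool.Agent.LibTH86
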