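import Pool.Agent.LibTH86.Main

/-!
Upper bounds for `θ_k` from upper bounds for the moments, with `ε`.
-/

set_option autoImplicit false

namespace Pool.Agent.LibTH86

/-- if the moment is at most `T ^ (a + η)` for every `η > 0` and large `T`, `a ≥ 1`, then `θ_k ≤ a` -/
theorem theta_le {k : ℕ} {a : ℝ} (ha : 1 ≤ a)
    (h : ∀ η : ℝ, 0 < η → ∃ T₀ : ℝ, ∀ T : ℝ, T₀ ≤ T → I k T ≤ T ^ (a + η)) :
    theta k ≤ (a : EReal) := by
  refine EReal.le_of_forall_lt_iff_le.1 fun z hz => ?_
  have hz' : a < z := by exact_mod_cast hz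
  obtain ⟨T₀, hT⟩ := h (z - a) (by linarith)
  have h1 : Admissible k z := admissible_of_bound (T₀ := T₀) (by linarith) fun T hT' => by
    have := hT T hT'
    rwa [show a + (z - a) = z by ring] at this
  exact sInf_le ⟨z, h1, rfl⟩

end Pool.Agent.LibTH86
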