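import Pool.Agent.LibTH86.Defs

/-!
Upper bounds for `θ_k` from upper bounds for the moments.
-/

set_option autoImplicit false

open Filter Asymptotics

namespace Pool.Agent.LibTH86

private theorem I_nonneg (k : ℕ) {T : ℝ} (hT : 0 ≤ T) : 0 ≤ I k T := by
  unfold I
  exact intervalIntegral.integral_nonneg hT fun t _ => by positivity

/-- an upper bound `T ^ a` for the moment, `a > 1`, makes `a` admissible -/
theorem admissible_of_bound {k : ℕ} {a T₀ : ℝ} (ha : 1 < a)
    (h : ∀ T : ℝ, T₀ ≤ T → I k T ≤ T ^ a) : Admissible k a := by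
  refine ⟨by linarith, Polynomial.X ^ (k ^ 2), by simp, ?_⟩
  have h1 : (fun T : ℝ => I k T) =O[atTop] fun T : ℝ => T ^ a := by
    refine IsBigO.of_bound 1 ?_
    filter_upwards [eventually_ge_atTop T₀, eventually_ge_atTop 0] with T hT hT0
    rw [Real.norm_of_nonneg (I_nonneg k hT0), Real.norm_of_nonneg (Real.rpow_nonneg hT0 a), one_mul]
    exact h T hT
  have h2 : (fun T : ℝ => T * Real.log T ^ (k ^ 2)) =O[atTop] fun T : ℝ => T ^ a := by
    have h3 : (fun T : ℝ => Real.log T ^ (k ^ 2)) =o[atTop] fun T : ℝ => T ^ (a - 1) := by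
      have h4 := isLittleO_log_rpow_rpow_atTop ((k ^ 2 : ℕ) : ℝ) (show 0 < a - 1 by linarith)
      refine h4.congr' ?_ (EventuallyEq.refl _ _)
      filter_upwards [eventually_ge_atTop 1] with T _
      rw [Real.rpow_natCast]
    have h5 := (isBigO_refl (fun T : ℝ => T) atTop).mul h3.isBigO
    refine h5.congr' (EventuallyEq.refl _ _) ?_
    filter_upwards [eventually_gt_atTop 0] with T hT
    rw [← Real.rpow_one_add' hT.le (by linarith)]
    ring_nf
  refine (h1.sub h2).congr_left fun T => ?_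
  rw [Polynomial.eval_pow, Polynomial.eval_X]

theorem theta_lt {k : ℕ} {a δ T₀ : ℝ} (hδ : 0 < δ) (ha : 1 < a)
    (h : ∀ T : ℝ, T₀ ≤ T → I k T ≤ T ^ (a - δ)) : theta k < (a : EReal) := by
  obtain ⟨b, hb1, hb2, hb3⟩ : ∃ b : ℝ, 1 < b ∧ a - δ ≤ b ∧ b < a :=
    ⟨max (a - δ) ((1 + a) / 2), lt_max_of_lt_right (by linarith), le_max_left _ _,
      max_lt (by linarith) (by linarith)⟩
  have h1 : Admissible k b := by
    refine admissible_of_bound (T₀ := max T₀ 1) hb1 fun T hT => ?_
    refine (h T ((le_max_left _ _).trans hT)).trans ?_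
    exact Real.rpow_le_rpow_of_exponent_le ((le_max_right _ _).trans hT) hb2
  have h2 : theta k ≤ (b : EReal) := sInf_le ⟨b, h1, rfl⟩
  exact lt_of_le_of_lt h2 (by exact_mod_cast hb3)

end Pool.Agent.LibTH86
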